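import Pool.Agent.Lib.MP_4a7072_co.NMain
import Pool.Agent.Lib.MP_4a7072_co.NBuild
import Pool.Agent.Lib.MP_4a7072_co.HBuild
import Pool.Agent.Lib.MP_4a7072_co.UOdd
import Pool.Agent.Lib.MP_4a7072_co.ZMain

set_option autoImplicit false

namespace Pool.Agent.Results.MP_4a7072_co.Main

open Pool.Agent.Lib.MP_4a7072_co

/-- The two-piece dissection exists for every Pythagorean triple. -/
theorem result (a b c : ℕ) (ha : 0 < a) (hab : a < b) (hbc : b < c) (h : a ^ 2 + b ^ 2 = c ^ 2) :
    TwoPieceDissection a b c := by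
  rcases eq_or_lt_of_le (show 1 ≤ Nat.gcd a b from Nat.gcd_pos_of_pos_left b ha) with g | g
  swap
  · exact NP.nonPrimitive_of (fun _ hk a b => NP.exists_des hk a b) a b c ha (by omega) h g
  rcases Nat.mod_two_eq_zero_or_one a with he | ho
  swap
  · exact NP.twoPiece_odd a b c hab h g.symm ho
  have mul : ∀ k, b ≠ k * a := fun k e => by
    rw [e, Nat.gcd_mul_left_right] at g
    omega
  rcases lt_trichotomy b (3 * a) with g3 | g3 | g3
  · exact NP.twoPiece_even a b c ha hab g3 h g.symm he
  · exact absurd g3 (mul 3)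
  rcases lt_trichotomy b (5 * a) with g5 | g5 | g5
  · exact NP.twoPiece_helix a b c ha g3 h g.symm he (Or.inl g5)
  · exact absurd g5 (mul 5)
  by_cases hr : b % a = a - 1
  · have h4 : 4 < a := by
      by_contra g4
      have : a * a ≤ 4 * a := Nat.mul_le_mul_right a (by omega)
      nlinarith
    exact NP.twoPiece_helix a b c ha g3 h g.symm he (Or.inr (Or.inr (by omega)))
  · exact NP.twoPiece_strip a b c ha g5 h g.symm he hr

end Pool.Agent.Results.MP_4a7072_co.Main
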